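import Pool.Agent.helper31.CloneMain

/-!
# Every clone homomorphism with the Baire property from a closed oligomorphic clone to the
projections is continuous
-/

namespace Pool.Agent.Results.MP_a98434_lc.BaireHomContinuous

open Pool.Agent.helper31.Clones Topology

universe u

/-- Let `C` be a closed oligomorphic clone on a countably infinite set `Ω` and let `ξ` be a clone
homomorphism from `C` to the clone of projections on a two-element set. Suppose that for every
continuous map `F` from Cantor space to the binary members of `C`, the set of those `s` for which
`ξ (F s)` is the first projection has the Baire property. Then `ξ` is continuous. -/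
theorem result (Ω : Type u) [Countable Ω] [Infinite Ω] [TopologicalSpace Ω] [DiscreteTopology Ω]
    (C : FunctionClone Ω) (hC : C.Closed) (hO : C.Oligomorphic)
    (ξ : CloneHom C projClone)
    (hξ : ∀ F : (ℕ → Bool) → C.ops 2, Continuous F →
      BaireMeasurableSet {s | ξ.toFun 2 (F s) = ⟨proj 2 0, projClone.proj_mem 2 0⟩}) :
    ∀ n, Continuous (ξ.toFun n) := by
  classical
  obtain ⟨ν⟩ : Nonempty (ℕ ≃ (Fin 2 → Ω)) := nonempty_equiv_of_countable
  obtain ⟨μ⟩ : Nonempty (ℕ ≃ Ω ⊕ Ω) := nonempty_equiv_of_countable
  have hξ' : ∀ F : (ℕ → Bool) → C.ops 2, Continuous F →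
      BaireMeasurableSet {s | par ξ (F s) = false} := by
    intro F hF
    convert hξ F hF using 1
    ext s
    simp only [Set.mem_ofPred_eq]
    rw [toFun_eq_iff]
    unfold par
    rcases Fin.exists_fin_two.1 ⟨idx ξ (F s), rfl⟩ with h | h <;> rw [h] <;> simp
  obtain ⟨h1, h2⟩ := par_closed ξ ν hC hO μ hξ'
  intro n
  rcases Nat.eq_zero_or_pos n with rfl | hn
  · have : IsEmpty (C.ops 0) := by
      rw [C.ops_zero]
      infer_instance
    exact continuous_iff_continuousAt.2 (fun x => isEmptyElim x)
  · -- the index map is continuous
    have hidx : Continuous (fun f : C.ops n => idx ξ f) := by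
      rw [continuous_discrete_rng]
      intro i
      -- the binary minor
      let P : Fin n → C.ops 2 := fun j => if j = i then c1 C else c0 C
      let m : C.ops n → C.ops 2 := fun f =>
        ⟨comp f.1 (fun j => (P j).1), C.comp_mem f.2 (fun j => (P j).2)⟩
      have hm : Continuous m := by
        refine Continuous.subtype_mk (continuous_pi fun x => ?_) _
        exact (continuous_apply (fun j => (P j).1 x)).comp continuous_subtype_val
      have : (fun f : C.ops n => idx ξ f) ⁻¹' {i} = m ⁻¹' {f : C.ops 2 | par ξ f = true} := by
        ext f
        simp only [Set.mem_preimage, Set.mem_singleton_iff, Set.mem_ofPred_eq]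
        have h3 : idx ξ (m f) = idx ξ (P (idx ξ f)) := idx_comp ξ f P
        unfold par
        rw [h3]
        by_cases hi : idx ξ f = i
        · have : P (idx ξ f) = c1 C := if_pos hi
          rw [this]
          unfold c1
          rw [idx_proj]
          simp [hi]
        · have : P (idx ξ f) = c0 C := if_neg hi
          rw [this]
          unfold c0
          rw [idx_proj]
          simp [hi]
      rw [this]
      have hopen : IsOpen {f : C.ops 2 | par ξ f = true} := by
        have : {f : C.ops 2 | par ξ f = true} = {f : C.ops 2 | par ξ f = false}ᶜ := by
          ext f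
          simp
        rw [this]
        exact h2.isOpen_compl
      exact hopen.preimage hm
    have : ξ.toFun n = (fun i : Fin n => (⟨proj n i, projClone.proj_mem n i⟩ :
        projClone.ops n)) ∘ (fun f : C.ops n => idx ξ f) := by
      funext f
      exact (toFun_eq_iff ξ f _).2 rfl
    rw [this]
    exact (continuous_of_discreteTopology).comp hidx

end Pool.Agent.Results.MP_a98434_lc.BaireHomContinuous
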