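import Pool.Agent.helper31.ZFClone2

/-!
# In every model of ZF some oligomorphic clone is not reconstructible

All notions of the statement are defined in `Pool.Agent.helper31.ZFStmt`; they are computed inside
a model `M` of ZF: the variables range over elements of `M` and every quantifier ranges over `M`.
-/

namespace Pool.Agent.Results.MP_a98434_lc.NoReconstruction

open Pool.Agent.helper31.ZF

universe u

/-- **In every model `M` of ZF there are, in the sense of `M`, two closed oligomorphic function
clones `C`, `C'` on a countably infinite set which are isomorphic as clones although no isomorphism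
from `C` onto `C'` is continuous.**  In particular `C` is not reconstructible. -/
theorem result (M : Type u) [ZFModel M] : ∃ Ω C C' : M,
    (∃ e, IsBij e om Ω) ∧
    (IsClone Ω C ∧ IsClosedClone Ω C ∧ IsOligomorphic Ω C) ∧
    (IsClone Ω C' ∧ IsClosedClone Ω C' ∧ IsOligomorphic Ω C') ∧
    (∃ φ, IsCloneIso Ω C Ω C' φ) ∧ (∀ φ, IsCloneIso Ω C Ω C' φ → ¬ IsCont Ω C Ω φ) ∧
    ¬ IsReconstructible Ω C := by
  refine ⟨om, CK K2, CK K1, Eqn.refl _,
    ⟨isClone_CK goodK2, isClosed_CK goodK2, isOligomorphic_CK goodK2⟩,
    ⟨isClone_CK goodK1, isClosed_CK goodK1, isOligomorphic_CK goodK1⟩,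
    ⟨Psi, Psi_iso⟩, fun φ hφ => no_cont hφ, ?_⟩
  intro h
  obtain ⟨e, he⟩ := Eqn.refl (om : M)
  exact no_cont Psi_iso
    (h om (CK K1) Psi ⟨e, he.1⟩ (isClone_CK goodK1) (isClosed_CK goodK1) Psi_iso).1

end Pool.Agent.Results.MP_a98434_lc.NoReconstruction
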